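import Pool.Agent.Q4.SPC.Stm5
import Pool.Agent.Q4.GLC.Slf

/-!
# Project SPC (helper4), job HS2: the kernel of the determinant of `GL_n(F)` has no proper subgroup
of finite index.
-/

open IsDedekindDomain NumberField Matrix Q4.GLC Q211.GLC

namespace Pool.Agent.Q153.SPC

theorem tv_ker {F : Type} [Field F] {n : ℕ} (i j : Fin n) (h : i ≠ j) (c : F) :
    tv i j h c ∈ (Matrix.GeneralLinearGroup.det : GQ F n →* Fˣ).ker := by
  rw [MonoidHom.mem_ker]
  apply Units.ext
  rw [Matrix.GeneralLinearGroup.val_det_apply, tv_det, Units.val_one]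

theorem hs2 : Q4.SPC.HS2 := by
  intro hSre F _ _ n Γ hΓ
  rw [eq_top_iff]
  intro γ _
  have hdet : (γ.1.1).det = 1 := by
    have h := MonoidHom.mem_ker.1 γ.2
    have h2 := congrArg Units.val h
    rwa [Matrix.GeneralLinearGroup.val_det_apply, Units.val_one] at h2
  obtain ⟨L, hL⟩ := hSre F (sr1_of_field F) n γ.1.1 hdet
  set Γ' : Subgroup (GQ F n) :=
    Γ.map (Matrix.GeneralLinearGroup.det : GQ F n →* Fˣ).ker.subtype with hΓ'
  have hmem : γ.1 ∈ Γ' := by
    refine list_prod (P := fun s => s ∈ Γ') Γ'.one_mem (fun a b ha hb => Γ'.mul_mem ha hb) ?_ L hL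
    intro i j h c
    have hr : Γ.normalCore.index ≠ 0 := Subgroup.FiniteIndex.index_ne_zero
    have h1 := Subgroup.pow_index_mem Γ.normalCore
      (⟨tv i j h (c / (Γ.normalCore.index : F)), tv_ker i j h _⟩ :
        ↥(Matrix.GeneralLinearGroup.det : GQ F n →* Fˣ).ker)
    have h3 := Γ.normalCore_le h1
    rw [hΓ', Subgroup.mem_map]
    refine ⟨_, h3, ?_⟩
    rw [map_pow, Subgroup.subtype_apply]
    change (tv i j h (c / (Γ.normalCore.index : F))) ^ Γ.normalCore.index = tv i j h c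
    rw [tv_pow]
    have h2 : (Γ.normalCore.index : F) * (c / (Γ.normalCore.index : F)) = c :=
      mul_div_cancel₀ c (by exact_mod_cast hr)
    rw [h2]
  rw [hΓ', Subgroup.mem_map] at hmem
  obtain ⟨g, hg, hgγ⟩ := hmem
  rw [Subgroup.subtype_apply] at hgγ
  have e : g = γ := Subtype.ext hgγ
  rw [← e]
  exact hg

end Pool.Agent.Q153.SPC
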